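import Pool.Agent.U996.EH.MaxU
import Pool.Agent.U996.GB.SlopeFix

/-!
# Multipliers: the sums over `n ≤ M` for a dilation by `q`, `M` between `q ^ (1 / r)` and `q ^ r`
-/

set_option autoImplicit false

namespace Pool.Agent.U996.LM

open Finset MeasureTheory Filter Topology
open scoped ENNReal
open Pool.Agent.Y957.AD (PolyVar)
open Pool.Agent.Y957.VK
open Pool.Agent.U996.UW
open Pool.Agent.U996.EH
open Pool.Agent.U996.GB

/-- the scales `2 ^ j` -/
def scales (r q : ℕ) : Finset ℕ := (Icc 1 (r * (Nat.log 2 q + 1) + 1)).filter fun j => q ≤ (2 ^ j) ^ r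

/-- the sums -/
noncomputable def S (A : ℝ → ℂ) (b : ℝ) (w : ℕ → ℕ → ℂ) (q M : ℕ) (u : ℝ) : ℂ :=
  ∑ n ∈ Icc 1 M, w q n * A (Real.exp (b + Real.log q + u) * (n : ℝ) ^ (1 : ℝ))

theorem S_meas (A : ℝ → ℂ) (hAm : Measurable A) (b : ℝ) (w : ℕ → ℕ → ℂ) (q M : ℕ) :
    Measurable (S A b w q M) := by
  unfold S
  refine Finset.measurable_fun_sum _ fun n _ => measurable_const.mul (hAm.comp ?_)
  exact (Real.measurable_exp.comp (measurable_const.add measurable_id)).mul measurable_const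

/-- the maximal function -/
noncomputable def F (A : ℝ → ℂ) (b : ℝ) (w : ℕ → ℕ → ℂ) (r q : ℕ) (u : ℝ) : ℝ≥0∞ :=
  ∑ j ∈ scales r q, ENNReal.ofReal (1 / 2 ^ j) * ⨆ M ∈ {M : ℕ | M ≤ 2 ^ j}, ‖S A b w q M u‖ₑ

theorem F_meas (A : ℝ → ℂ) (hAm : Measurable A) (b : ℝ) (w : ℕ → ℕ → ℂ) (r q : ℕ) :
    Measurable (F A b w r q) := by
  unfold F
  refine Finset.measurable_fun_sum _ fun j _ => measurable_const.mul ?_
  exact Measurable.biSup _ (Set.to_countable _) fun M _ => (S_meas A hAm b w q M).enorm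

theorem F_ge (A : ℝ → ℂ) (b : ℝ) (w : ℕ → ℕ → ℂ) (r q : ℕ) (u : ℝ) {j M : ℕ} (hj : j ∈ scales r q)
    (hM : M ≤ 2 ^ j) : ENNReal.ofReal (1 / 2 ^ j) * ‖S A b w q M u‖ₑ ≤ F A b w r q u := by
  unfold F
  refine le_trans ?_ (Finset.single_le_sum (f := fun j => ENNReal.ofReal (1 / 2 ^ j) *
    ⨆ M ∈ {M : ℕ | M ≤ 2 ^ j}, ‖S A b w q M u‖ₑ) (fun i _ => zero_le) hj)
  gcongr
  exact le_biSup (fun M => ‖S A b w q M u‖ₑ) hM

theorem F_int (A : ℝ → ℂ) (hA1 : ∀ x, ‖A x‖ ≤ 1) (hAm : Measurable A) (hAv : PolyVar A) (hAw : WNeg A)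
    (b : ℝ) (w : ℕ → ℕ → ℂ) (hw : ∀ q n, ‖w q n‖ ≤ 1) (r : ℕ) (hr : 1 ≤ r) (K : ℕ) :
    ∃ C : ℝ, 0 ≤ C ∧ ∀ᶠ q : ℕ in atTop,
      ∫⁻ u in Set.Icc (0 : ℝ) 1, F A b w r q u ≤ ENNReal.ofReal (C / Real.log q ^ K) := by
  obtain ⟨C, hC, hmax⟩ := max_u A hA1 hAm hAv hAw 1 one_pos (K + 1) (⌈|b|⌉₊ + r)
  have hrr : (1 : ℝ) ≤ r := by exact_mod_cast hr
  refine ⟨(4 * r + 1) * (C * r ^ (K + 1)), by positivity, ?_⟩
  filter_upwards [eventually_ge_atTop 3, nlog.eventually_ge_atTop 1] with q hq hl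
  obtain ⟨ℓ, hℓ⟩ : ∃ ℓ : ℝ, ℓ = Real.log q := ⟨_, rfl⟩
  rw [← hℓ] at hl ⊢
  have hℓ0 : 0 < ℓ := by linarith
  have hone : ∀ j ∈ scales r q, ∫⁻ u in Set.Icc (0 : ℝ) 1, ENNReal.ofReal (1 / 2 ^ j) *
      (⨆ M ∈ {M : ℕ | M ≤ 2 ^ j}, ‖S A b w q M u‖ₑ) ≤ ENNReal.ofReal (C * r ^ (K + 1) / ℓ ^ (K + 1)) := by
    intro j hj
    unfold scales at hj
    rw [mem_filter, mem_Icc] at hj
    obtain ⟨⟨hj1, _⟩, hj2⟩ := hj
    have h2j : 2 ≤ 2 ^ j := by
      calc 2 = 2 ^ 1 := (pow_one 2).symm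
        _ ≤ 2 ^ j := Nat.pow_le_pow_right (by norm_num) hj1
    have hlq : ℓ ≤ r * Real.log ((2 ^ j : ℕ) : ℝ) := by
      rw [hℓ, ← Real.log_pow]
      exact Real.log_le_log (by exact_mod_cast (by omega : 0 < q)) (by exact_mod_cast hj2)
    have hlj : 0 ≤ Real.log ((2 ^ j : ℕ) : ℝ) := Real.log_natCast_nonneg _
    have hb := Nat.le_ceil |b|
    have hb0 : (0 : ℝ) ≤ ⌈|b|⌉₊ := Nat.cast_nonneg _
    obtain ⟨G, hGm, hG1, hG2⟩ := hmax (2 ^ j) h2j (b + Real.log q) (by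
        push_cast
        have := neg_abs_le b
        rw [← hℓ]
        linarith) (by
        push_cast
        have := le_abs_self b
        push_cast at hlq hlj
        rw [← hℓ]
        nlinarith) (w q) (hw q)
    rw [lintegral_const_mul' _ _ ENNReal.ofReal_ne_top]
    have h1 : ∫⁻ u in Set.Icc (0 : ℝ) 1, (⨆ M ∈ {M : ℕ | M ≤ 2 ^ j}, ‖S A b w q M u‖ₑ) ≤
        ENNReal.ofReal (C * (((2 ^ j : ℕ) : ℝ) / Real.log ((2 ^ j : ℕ) : ℝ) ^ (K + 1))) := by
      refine le_trans (lintegral_mono fun u => ?_) hG2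
      exact iSup₂_le fun M hM => hG1 u M hM
    refine (mul_le_mul_right h1 _).trans ?_
    rw [← ENNReal.ofReal_mul (by positivity)]
    apply ENNReal.ofReal_le_ofReal
    have hlp : 0 < Real.log ((2 ^ j : ℕ) : ℝ) := Real.log_pos (by exact_mod_cast (by omega : 1 < 2 ^ j))
    have e1 : 1 / (2 : ℝ) ^ j * (C * (((2 ^ j : ℕ) : ℝ) / Real.log ((2 ^ j : ℕ) : ℝ) ^ (K + 1))) =
        C / Real.log ((2 ^ j : ℕ) : ℝ) ^ (K + 1) := by
      push_cast
      field_simp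
    rw [e1, div_le_div_iff₀ (by positivity) (by positivity), mul_assoc, ← mul_pow]
    exact mul_le_mul_of_nonneg_left (pow_le_pow_left₀ hℓ0.le hlq _) hC
  have hm : ∀ j ∈ scales r q, Measurable fun u => ENNReal.ofReal (1 / 2 ^ j) *
      ⨆ M ∈ {M : ℕ | M ≤ 2 ^ j}, ‖S A b w q M u‖ₑ := fun j _ =>
    measurable_const.mul (Measurable.biSup _ (Set.to_countable _) fun M _ => (S_meas A hAm b w q M).enorm)
  unfold F
  rw [lintegral_finsetSum _ hm]
  refine (Finset.sum_le_sum hone).trans ?_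
  rw [Finset.sum_const, nsmul_eq_mul, ← ENNReal.ofReal_natCast, ← ENNReal.ofReal_mul (Nat.cast_nonneg _)]
  apply ENNReal.ofReal_le_ofReal
  have hcard : ((scales r q).card : ℝ) ≤ (4 * r + 1) * ℓ := by
    have h1 : (scales r q).card ≤ r * (Nat.log 2 q + 1) + 1 := by
      unfold scales
      exact (Finset.card_filter_le _ _).trans (by rw [Nat.card_Icc]; omega)
    have h2 : ((scales r q).card : ℝ) ≤ r * (Nat.log 2 q + 1) + 1 := by exact_mod_cast h1
    have h3 : (Nat.log 2 q : ℝ) * Real.log 2 ≤ ℓ := by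
      rw [← Real.log_pow, hℓ]
      exact Real.log_le_log (by positivity) (by exact_mod_cast Nat.pow_log_le_self 2 (by omega))
    have h4 := Real.log_two_gt_d9
    have h5 : (0 : ℝ) ≤ Nat.log 2 q := Nat.cast_nonneg _
    have h6 : (Nat.log 2 q : ℝ) ≤ 2 * ℓ := by nlinarith
    have h7 : (r : ℝ) * (Nat.log 2 q + 1) ≤ r * (4 * ℓ) := mul_le_mul_of_nonneg_left (by linarith) (by linarith)
    linarith
  calc ((scales r q).card : ℝ) * (C * r ^ (K + 1) / ℓ ^ (K + 1)) ≤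
        (4 * r + 1) * ℓ * (C * r ^ (K + 1) / ℓ ^ (K + 1)) := mul_le_mul_of_nonneg_right hcard (by positivity)
    _ = (4 * r + 1) * (C * r ^ (K + 1)) / ℓ ^ K := by
        rw [pow_succ ℓ]
        field_simp

/-- the error -/
noncomputable def er (a : ℝ) (h : ℤ) (w : ℕ → ℝ) (q M : ℕ) : ℝ :=
  ∑ n ∈ Icc 1 M, w n * (pz (⌊a * (n * q)⌋ + h) - rz (⌊a * (n * q)⌋ + h))

theorem er_eq (b u : ℝ) (h : ℤ) (w : ℕ → ℕ → ℝ) (q M : ℕ) (hq : 1 ≤ q) :
    S (sh (fun n => pI n - pR n) h) b (fun q n => (w q n : ℂ)) q M u =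
      ((er (Real.exp (b + u)) h (w q) q M : ℝ) : ℂ) := by
  unfold S er
  push_cast
  refine Finset.sum_congr rfl fun n _ => ?_
  have hq0 : (0 : ℝ) < q := by exact_mod_cast hq
  have e1 : Real.exp (b + Real.log q + u) * (n : ℝ) ^ (1 : ℝ) = Real.exp (b + u) * (n * q) := by
    rw [Real.rpow_one, show b + Real.log q + u = b + u + Real.log q by ring, Real.exp_add,
      Real.exp_log hq0]
    ring
  rw [e1, sh_pz h _ (by positivity)]
  push_cast
  rfl

open Classical in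
/-- **Almost every slope**: the error is small for nearly all `q` and all `M` in the range. -/
theorem mult_ae (w : ℕ → ℕ → ℝ) (hw : ∀ q n, |w q n| ≤ 1) (R : Set ℕ) :
    ∀ᵐ a : ℝ, 0 < a → ∀ (h : ℤ) (r : ℕ), 1 ≤ r → ∀ K : ℕ, ∀ᶠ i : ℕ in atTop,
        (((dy R i).filter fun q : ℕ => ∃ M : ℕ, q ≤ M ^ r ∧ M ≤ q ^ r ∧
          (M : ℝ) / Real.log q ^ K < |er a h (w q) q M|).card : ℝ) * i ^ K ≤ (dy R i).card := by
  refine ae_cubes1 (fun a => ∀ (h : ℤ) (r : ℕ), 1 ≤ r → ∀ K : ℕ, ∀ᶠ i : ℕ in atTop,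
        (((dy R i).filter fun q : ℕ => ∃ M : ℕ, q ≤ M ^ r ∧ M ≤ q ^ r ∧
          (M : ℝ) / Real.log q ^ K < |er a h (w q) q M|).card : ℝ) * i ^ K ≤ (dy R i).card) fun b => ?_
  rw [ae_all_iff]
  intro h
  rw [ae_all_iff]
  intro r
  rcases Nat.eq_zero_or_pos r with hr | hr
  · exact ae_of_all _ fun u h1 => absurd h1 (by omega)
  obtain ⟨g, hg⟩ : ∃ g : ℕ → ℝ → ℝ≥0∞, g = fun (q : ℕ) (u : ℝ) => ENNReal.ofReal ((q : ℝ) ^ 2) *
    F (sh (fun n => pI n - pR n) h) (b : ℝ) (fun q n => (w q n : ℂ)) r q u := ⟨_, rfl⟩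
  have hgm : ∀ q, Measurable (g q) := by
    intro q
    rw [hg]
    exact measurable_const.mul (F_meas _ (sh_meas _ _) _ _ _ _)
  have hw' : ∀ q n, ‖(fun q n => (w q n : ℂ)) q n‖ ≤ 1 := by
    intro q n
    show ‖(w q n : ℂ)‖ ≤ 1
    rw [Complex.norm_real]
    exact hw q n
  have hgi : ∀ K : ℕ, ∃ C : ℝ, 0 ≤ C ∧ ∀ᶠ n : ℕ in atTop,
      ∫⁻ u in Set.Icc (0 : ℝ) 1, g n u ≤ ENNReal.ofReal (C * (n ^ 2 / Real.log n ^ K)) := by
    intro K
    obtain ⟨C, hC, h1⟩ := F_int (sh (fun n => pI n - pR n) h) (sh_le fp_le _) (sh_meas _ _)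
      (sh_var fp_le _) (sh_neg fp_le neg_fp _) (b : ℝ) (fun q n => (w q n : ℂ)) hw' r hr K
    refine ⟨C, hC, ?_⟩
    filter_upwards [h1] with q hq
    rw [hg]
    simp only
    rw [lintegral_const_mul' _ _ ENNReal.ofReal_ne_top]
    refine (mul_le_mul_right hq _).trans ?_
    rw [← ENNReal.ofReal_mul (by positivity)]
    apply ENNReal.ofReal_le_ofReal
    exact le_of_eq (by ring)
  filter_upwards [exc (volume.restrict (Set.Icc (0 : ℝ) 1)) g hgm hgi R] with u hu _ K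
  obtain ⟨n1, hn1⟩ := (nlog.eventually_ge_atTop 2).exists_forall_of_atTop
  filter_upwards [hu (K + 1), eventually_ge_atTop n1, eventually_ge_atTop 2] with i h1 h2 h3
  have hi1 : (1 : ℝ) ≤ i := by exact_mod_cast (by omega : 1 ≤ i)
  refine le_trans ?_ h1
  refine mul_le_mul ?_ (pow_le_pow_right₀ hi1 (by omega)) (by positivity) (Nat.cast_nonneg _)
  have hsub : ((dy R i).filter fun q : ℕ => ∃ M : ℕ, q ≤ M ^ r ∧ M ≤ q ^ r ∧
      (M : ℝ) / Real.log q ^ K < |er (Real.exp ((b : ℝ) + u)) h (w q) q M|) ⊆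
      (dy R i).filter fun n : ℕ => ENNReal.ofReal ((n : ℝ) ^ 2 / Real.log n ^ (K + 1)) < g n u := by
    intro q hq
    rw [mem_filter] at hq ⊢
    obtain ⟨hqi, M, hM1, hM2, hM3⟩ := hq
    refine ⟨hqi, ?_⟩
    have hiq : i < q := by
      unfold dy at hqi
      rw [mem_filter, mem_Ico] at hqi
      exact lt_of_lt_of_le Nat.lt_two_pow_self hqi.1.1
    have hlq : 2 ≤ Real.log q := hn1 q (by omega)
    have hlq0 : 0 < Real.log q := by linarith
    have hq0 : (0 : ℝ) < q := by exact_mod_cast (by omega : 0 < q)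
    have hM0 : M ≠ 0 := by
      rintro rfl
      rw [zero_pow (by omega)] at hM1
      omega
    have hM2' : 2 ≤ M := by
      by_contra hcon
      have : M = 1 := by omega
      rw [this, one_pow] at hM1
      omega
    obtain ⟨j, hj⟩ : ∃ j, j = Nat.clog 2 M := ⟨_, rfl⟩
    have hMj : M ≤ 2 ^ j := by rw [hj]; exact Nat.le_pow_clog (by norm_num) M
    have hj1 : 1 ≤ j := by
      rw [hj]
      exact Nat.clog_pos (by norm_num) hM2'
    have hjM : 2 ^ j ≤ 2 * M := by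
      have h4 : 2 ^ (j - 1) < M := by
        rw [hj]
        exact Nat.pow_pred_clog_lt_self (by norm_num) (by omega)
      have h5 : 2 ^ j = 2 * 2 ^ (j - 1) := by
        rw [← pow_succ']
        congr 1
        omega
      omega
    have hjs : j ∈ scales r q := by
      unfold scales
      rw [mem_filter, mem_Icc]
      refine ⟨⟨hj1, ?_⟩, hM1.trans (Nat.pow_le_pow_left hMj r)⟩
      have h4 : M ≤ 2 ^ (r * (Nat.log 2 q + 1)) := by
        refine hM2.trans ?_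
        rw [mul_comm, pow_mul]
        exact Nat.pow_le_pow_left (Nat.lt_pow_succ_log_self (by norm_num) q).le r
      have h5 : j ≤ r * (Nat.log 2 q + 1) := by
        rw [hj]
        exact Nat.clog_le_of_le_pow h4
      omega
    have h6 := F_ge (sh (fun n => pI n - pR n) h) (b : ℝ) (fun q n => (w q n : ℂ)) r q u hjs hMj
    rw [er_eq (b : ℝ) u h w q M (by omega)] at h6
    have h7 : ENNReal.ofReal ((q : ℝ) ^ 2) * (ENNReal.ofReal (1 / 2 ^ j) *
        ‖((er (Real.exp ((b : ℝ) + u)) h (w q) q M : ℝ) : ℂ)‖ₑ) ≤ g q u := by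
      rw [hg]
      exact mul_le_mul_right h6 _
    refine lt_of_lt_of_le ?_ h7
    rw [← ofReal_norm, Complex.norm_real, Real.norm_eq_abs, ← ENNReal.ofReal_mul (by positivity),
      ← ENNReal.ofReal_mul (by positivity)]
    have hE : 0 < |er (Real.exp ((b : ℝ) + u)) h (w q) q M| := lt_of_le_of_lt (by positivity) hM3
    rw [ENNReal.ofReal_lt_ofReal_iff (by positivity)]
    have hMr : (0 : ℝ) < M := by exact_mod_cast (by omega : 0 < M)
    have hjr : (2 : ℝ) ^ j ≤ 2 * M := by exact_mod_cast hjM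
    have h8 : 1 / Real.log q ^ (K + 1) < 1 / 2 ^ j * |er (Real.exp ((b : ℝ) + u)) h (w q) q M| := by
      have h9 : (M : ℝ) / Real.log q ^ K * (1 / (2 * M)) <
          |er (Real.exp ((b : ℝ) + u)) h (w q) q M| * (1 / 2 ^ j) := by
        refine lt_of_lt_of_le (mul_lt_mul_of_pos_right hM3 (by positivity)) ?_
        exact mul_le_mul_of_nonneg_left (one_div_le_one_div_of_le (by positivity) hjr) hE.le
      have h10 : 1 / Real.log q ^ (K + 1) ≤ (M : ℝ) / Real.log q ^ K * (1 / (2 * M)) := by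
        have e1 : (M : ℝ) / Real.log q ^ K * (1 / (2 * M)) = 1 / (Real.log q ^ K * 2) := by
          field_simp
        rw [e1, pow_succ]
        exact one_div_le_one_div_of_le (by positivity) (mul_le_mul_of_nonneg_left hlq (by positivity))
      linarith
    calc (q : ℝ) ^ 2 / Real.log q ^ (K + 1) = (q : ℝ) ^ 2 * (1 / Real.log q ^ (K + 1)) := by ring
      _ < (q : ℝ) ^ 2 * (1 / 2 ^ j * |er (Real.exp ((b : ℝ) + u)) h (w q) q M|) :=
          mul_lt_mul_of_pos_left h8 (by positivity)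
  exact_mod_cast Finset.card_le_card hsub

end Pool.Agent.U996.LM
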